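import Mathlib

namespace Pool.Agent.H.MP_708f28_lc

open Set Filter Topology

variable {E : Type} [AddCommGroup E] [Module ℝ E] [TopologicalSpace E] [IsTopologicalAddGroup E]
  [ContinuousSMul ℝ E]

theorem ball_nhds [BaireSpace E] (q : ℕ → Seminorm ℝ E) (h : ∀ x, ∃ k : ℕ, ∀ N, q N x ≤ k)
    {δ : ℝ} (hδ : 0 < δ) : closure {x | ∀ N, q N x ≤ δ} ∈ 𝓝 (0 : E) := by
  obtain ⟨k, x, hx⟩ := nonempty_interior_of_iUnion_of_closed
    (f := fun k : ℕ => closure {x | ∀ N, q N x ≤ k}) (fun _ => isClosed_closure)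
    (eq_univ_of_forall fun x => mem_iUnion.2 ((h x).imp fun k hk => subset_closure hk))
  have c0 : (0 : ℝ) < δ / (2 * k + 1) := by positivity
  have t : Tendsto (fun y : E => x + (δ / (2 * k + 1))⁻¹ • y) (𝓝 0) (𝓝 x) := by
    refine Continuous.tendsto' (by fun_prop) _ _ (by simp)
  filter_upwards [t (mem_interior_iff_mem_nhds.1 hx)] with y hy
  have := map_mem_closure₂ (f := fun a b : E => (δ / (2 * k + 1)) • (a - b))
    (u := {x | ∀ N, q N x ≤ δ}) (by fun_prop) hy (interior_subset hx) fun a ha b hb N => by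
      rw [map_smul_eq_mul, Real.norm_of_nonneg c0.le]
      refine (mul_le_mul_of_nonneg_left ((map_sub_le_add _ _ _).trans
        (add_le_add (ha N) (hb N))) c0.le).trans ?_
      rw [div_mul_eq_mul_div, div_le_iff₀ (by positivity)]
      nlinarith
  rwa [add_sub_cancel_left, smul_inv_smul₀ c0.ne'] at this

theorem tend {p : ℕ → Seminorm ℝ E}
    (hb : ∀ U ∈ 𝓝 (0 : E), ∃ m, ∃ δ > 0, ∀ x, p m x < δ → x ∈ U) {α : Type} {l : Filter α}
    {F : α → E} {x : E} (h : ∀ t, ∀ ε > 0, ∀ᶠ i in l, p t (F i - x) < ε) : Tendsto F l (𝓝 x) := by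
  refine tendsto_sub_nhds_zero_iff.1 fun U hU => ?_
  obtain ⟨m, δ, h0, h1⟩ := hb U hU
  exact (h m δ h0).mono fun i hi => h1 _ hi

theorem equi [BaireSpace E] [T2Space E] {p : ℕ → Seminorm ℝ E} (hm : Monotone p)
    (hc : ∀ t, Continuous (p t)) (hb : ∀ U ∈ 𝓝 (0 : E), ∃ m, ∃ δ > 0, ∀ x, p m x < δ → x ∈ U)
    {e : ℕ → E} (he : ∀ x, ∃! a : ℕ → ℝ,
      Tendsto (fun N => ∑ n ∈ Finset.range N, a n • e n) atTop (𝓝 x)) :
    ∃ a : ℕ → E →ₗ[ℝ] ℝ,
      (∀ x, Tendsto (fun N => ∑ n ∈ Finset.range N, a n x • e n) atTop (𝓝 x)) ∧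
      ∀ t, ∃ m C, 0 ≤ C ∧ ∀ N x, p t (∑ n ∈ Finset.range N, a n x • e n) ≤ C * p m x := by
  choose a0 h1 h2 using he
  let a : ℕ → E →ₗ[ℝ] ℝ := fun n =>
    { toFun := fun x => a0 x n
      map_add' := fun x y => (congrFun (h2 (x + y) (a0 x + a0 y) (((h1 x).add (h1 y)).congr
        fun N => by simp [add_smul, Finset.sum_add_distrib])) n).symm
      map_smul' := fun c x => (congrFun (h2 (c • x) (c • a0 x) (((h1 x).const_smul c).congr
        fun N => by simp [Finset.smul_sum, smul_smul])) n).symm }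
  let P : ℕ → E →ₗ[ℝ] E := fun N => ∑ n ∈ Finset.range N, (a n).smulRight (e n)
  have hP : ∀ N x, P N x = ∑ n ∈ Finset.range N, a0 x n • e n := fun N x => by
    simp [P, a, LinearMap.sum_apply]
  have h3 : ∀ x, Tendsto (fun N => P N x) atTop (𝓝 x) := fun x => by simpa only [hP] using h1 x
  have e0 : ∀ n, ∃ t, 0 < p t (e n) := fun n => by
    have : e n ≠ 0 := fun h => by
      have := congrFun (h2 0 (Function.update (a0 0) n (a0 0 n + 1)) ((h1 0).congr fun N =>
        Finset.sum_congr rfl fun i _ => by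
          by_cases hi : i = n
          · rw [hi, h, smul_zero, smul_zero]
          · rw [Function.update_of_ne hi])) n
      simp at this
    obtain ⟨m, δ, d, h⟩ := hb {e n}ᶜ (isOpen_compl_singleton.mem_nhds this.symm)
    exact ⟨m, d.trans_le (not_lt.1 fun x => h _ x rfl)⟩
  refine ⟨a, h1, fun t => ?_⟩
  let S : ℕ → Set E := fun r => {x | ∀ N, (p (t + r)).comp (P N) x ≤ (1 / 2) ^ r}
  have s1 : ∀ r, closure (S r) ∈ 𝓝 (0 : E) := fun r => ball_nhds _ (fun x => by
    obtain ⟨k, hk⟩ := (((hc (t + r)).tendsto _).comp (h3 x)).bddAbove_range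
    obtain ⟨k', hk'⟩ := exists_nat_ge k
    exact ⟨k', fun N => (hk ⟨N, rfl⟩).trans hk'⟩) (by positivity)
  have s2 : ∀ r, ∀ x ∈ closure (S r), p (t + r) x ≤ (1 / 2) ^ r := fun r =>
    closure_minimal (t := {x | p (t + r) x ≤ (1 / 2) ^ r}) (fun x hx =>
      le_of_tendsto' (((hc _).tendsto _).comp (h3 x)) hx) (isClosed_le (hc _) continuous_const)
  have s3 : ∀ r y, ∃ u, y ∈ closure (S r) → u ∈ S r ∧ y - u ∈ closure (S (r + 1)) := fun r y => by
    by_cases hy : y ∈ closure (S r)
    · obtain ⟨u, u1, u2⟩ := mem_closure_iff_nhds.1 hy _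
        (Continuous.tendsto' (f := fun u => y - u) (by fun_prop) y 0 (sub_self y) (s1 (r + 1)))
      exact ⟨u, fun _ => ⟨u2, u1⟩⟩
    · exact ⟨0, fun h => absurd h hy⟩
  choose u hu using s3
  have key : ∀ x ∈ closure (S 0), ∀ N, p t (P N x) ≤ 2 := by
    intro x hx
    let ρ : ℕ → E := fun r => r.rec x fun r y => y - u r y
    have r1 : ∀ r, ρ r ∈ closure (S r) := fun r => by
      induction r with
      | zero => exact hx
      | succ r ih => exact (hu r _ ih).2
    have r2 : ∀ r N, p (t + r) (P N (ρ r - ρ (r + 1))) ≤ (1 / 2) ^ r := fun r N => by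
      rw [show ρ (r + 1) = ρ r - u r (ρ r) from rfl, sub_sub_cancel]
      exact (hu r _ (r1 r)).1 N
    have r3 : ∀ R N k, p (t + R) (P N (ρ R - ρ (R + k))) ≤ 2 * (1 / 2) ^ R - 2 * (1 / 2) ^ (R + k) := by
      intro R N k
      induction k with
      | zero => simp
      | succ k ih =>
        have := map_add_le_add (p (t + R)) (P N (ρ R - ρ (R + k))) (P N (ρ (R + k) - ρ (R + k + 1)))
        rw [← map_add, sub_add_sub_cancel] at this
        have := (hm (show t + R ≤ t + (R + k) by omega) _).trans (r2 (R + k) N)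
        rw [← add_assoc, pow_succ]
        linarith
    have r4 : ∀ n, ∃ A, Tendsto (fun r => a0 (ρ r) n) atTop (𝓝 A) := fun n => by
      obtain ⟨s, hs⟩ := e0 n
      refine cauchySeq_tendsto_of_complete ((cauchySeq_shift s).1 (cauchySeq_of_le_geometric
        (1 / 2) (2 / p s (e n)) (by norm_num) fun r => ?_))
      have e1 : a n (ρ (r + s) - ρ (r + s + 1)) • e n =
          P (n + 1) (ρ (r + s) - ρ (r + s + 1)) - P n (ρ (r + s) - ρ (r + s + 1)) := by
        rw [hP, hP, Finset.sum_range_succ, add_sub_cancel_left]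
        rfl
      have e2 := map_sub_le_add (p s) (P (n + 1) (ρ (r + s) - ρ (r + s + 1)))
        (P n (ρ (r + s) - ρ (r + s + 1)))
      have e3 := fun N => ((hm (show s ≤ t + (r + s) by omega) _).trans (r2 (r + s) N)).trans
        (pow_le_pow_of_le_one (by norm_num) (by norm_num) (show r ≤ r + s by omega))
      rw [← e1, map_smul_eq_mul, map_sub] at e2
      rw [dist_eq_norm, div_mul_eq_mul_div, le_div_iff₀ hs, show r + 1 + s = r + s + 1 by omega]
      exact e2.trans ((add_le_add (e3 (n + 1)) (e3 n)).trans_eq (two_mul _).symm)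
    choose A hA using r4
    have r5 : ∀ R N, p (t + R) (P N (ρ R) - ∑ n ∈ Finset.range N, A n • e n) ≤ 2 * (1 / 2) ^ R := by
      intro R N
      refine le_of_tendsto' (((hc _).tendsto _).comp (tendsto_const_nhds.sub
        ((tendsto_finset_sum _ fun n _ => (hA n).smul_const (e n)).comp
          (tendsto_add_atTop_nat R)))) fun k => ?_
      have := r3 R N k
      rw [map_sub, hP N (ρ (R + k)), add_comm R k] at this
      exact this.trans (sub_le_self _ (by positivity))
    have r6 : A = a0 0 := h2 0 A (tend hb fun s ε hε => by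
      obtain ⟨R, hR1, hR2⟩ := ((eventually_ge_atTop s).and ((tendsto_pow_atTop_nhds_zero_of_lt_one
        (r := 1 / 2) (by norm_num) (by norm_num)).eventually
          (gt_mem_nhds (show 0 < ε / 4 by linarith)))).exists
      filter_upwards [(((hc (t + R)).tendsto _).comp (h3 (ρ R))).eventually
        (gt_mem_nhds ((s2 R _ (r1 R)).trans_lt (show _ < ε / 2 by linarith)))] with N hN
      refine (hm (show s ≤ t + R by omega) _).trans_lt ?_
      have := map_sub_le_add (p (t + R)) (P N (ρ R)) (P N (ρ R) - ∑ n ∈ Finset.range N, A n • e n)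
      rw [sub_sub_cancel] at this
      rw [sub_zero]
      linarith [r5 R N, show p (t + R) (P N (ρ R)) < ε / 2 from hN])
    intro N
    have := r5 0 N
    rw [r6, ← hP, map_zero, sub_zero, pow_zero, mul_one] at this
    exact this
  obtain ⟨m, δ, d, h⟩ := hb _ (s1 0)
  refine ⟨m, 2 / δ, by positivity, fun N x => le_of_forall_pos_le_add fun ε hε => ?_⟩
  have c0 : 0 < p m x + ε * δ / 2 := by positivity
  have := key ((δ / (p m x + ε * δ / 2)) • x) (h _ (by
    rw [map_smul_eq_mul, Real.norm_of_nonneg (by positivity), div_mul_eq_mul_div, div_lt_iff₀ c0]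
    nlinarith [mul_pos hε d])) N
  rw [map_smul, map_smul_eq_mul, Real.norm_of_nonneg (by positivity), div_mul_eq_mul_div,
    div_le_iff₀ c0, hP] at this
  rw [div_mul_eq_mul_div, div_add' _ _ _ d.ne', le_div_iff₀ d]
  show p t (∑ n ∈ Finset.range N, a0 x n • e n) * δ ≤ _
  linarith

end Pool.Agent.H.MP_708f28_lc
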