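import Mathlib

namespace Pool.Agent.H.MP_708f28_lc

open Set Filter Topology

noncomputable def rs (t : ℕ) : C(ℝ, ℝ) →ₗ[ℝ] C(Icc (-(t : ℝ)) t, ℝ) where
  toFun f := f.restrict _
  map_add' _ _ := rfl
  map_smul' _ _ := rfl

noncomputable def pp (t : ℕ) : Seminorm ℝ C(ℝ, ℝ) := (normSeminorm ℝ _).comp (rs t)

theorem pp_le {t : ℕ} {f : C(ℝ, ℝ)} {c : ℝ} (hc : 0 ≤ c) (h : ∀ s : ℝ, |s| ≤ t → |f s| ≤ c) :
    pp t f ≤ c :=
  (ContinuousMap.norm_le _ hc).2 fun s => h s (abs_le.2 s.2)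

theorem le_pp {t : ℕ} (f : C(ℝ, ℝ)) {s : ℝ} (h : |s| ≤ t) : |f s| ≤ pp t f :=
  (rs t f).norm_coe_le_norm ⟨s, abs_le.1 h⟩

theorem pp_mono : Monotone pp := fun _ _ h f =>
  pp_le (apply_nonneg _ _) fun _ hs => le_pp f (hs.trans (Nat.cast_le.2 h))

theorem pp_cont (t : ℕ) : Continuous (pp t) :=
  (continuous_norm (E := C(Icc (-(t : ℝ)) t, ℝ))).comp (ContinuousMap.continuous_restrict _)

theorem pp_basis (U : Set C(ℝ, ℝ)) (hU : U ∈ 𝓝 0) : ∃ m, ∃ δ > 0, ∀ x, pp m x < δ → x ∈ U := by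
  by_contra hn
  push Not at hn
  choose f f1 f2 using fun m : ℕ => hn m (1 / (m + 1)) (by positivity)
  have : Tendsto f atTop (𝓝 0) := by
    refine ContinuousMap.tendsto_iff_forall_isCompact_tendstoUniformlyOn.2 fun K hK =>
      Metric.tendstoUniformlyOn_iff.2 fun ε hε => ?_
    obtain ⟨r, hr⟩ := hK.isBounded.exists_norm_le
    filter_upwards [tendsto_natCast_atTop_atTop.eventually_ge_atTop r,
      (tendsto_one_div_add_atTop_nhds_zero_nat (𝕜 := ℝ)).eventually (gt_mem_nhds hε)]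
      with m h1 h2 s hs
    rw [ContinuousMap.zero_apply, dist_zero_left]
    exact (le_pp _ ((hr s hs).trans h1)).trans_lt ((f1 m).trans h2)
  obtain ⟨m, hm⟩ := (this.eventually hU).exists
  exact f2 m hm

noncomputable def bp (t c : ℕ) (s : ℝ) : ℝ := max 0 (1 - |4 * (2 ^ c * (s - t)) - 3|)

theorem bp_ne {t c : ℕ} {s : ℝ} (h : bp t c s ≠ 0) :
    1 / 2 < 2 ^ c * (s - t) ∧ 2 ^ c * (s - t) < 1 := by
  have : |4 * (2 ^ c * (s - t)) - 3| < 1 := by
    by_contra hn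
    exact h (max_eq_left (by linarith))
  rw [abs_lt] at this
  constructor <;> linarith

theorem bp_t {t c : ℕ} {s : ℝ} (h : bp t c s ≠ 0) : t < s ∧ s < t + 1 := by
  obtain ⟨a, b⟩ := bp_ne h
  have h1 : (1 : ℝ) ≤ 2 ^ c := one_le_pow₀ one_le_two
  have h2 : 0 < s - t := pos_of_mul_pos_left (by linarith : 0 < (s - t) * 2 ^ c) (by linarith)
  constructor <;> nlinarith

theorem bp_uniq {t c t' c' : ℕ} {s : ℝ} (h : bp t c s ≠ 0) (h' : bp t' c' s ≠ 0) :
    t = t' ∧ c = c' := by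
  obtain rfl : t = t' := by
    have a : (t : ℝ) < (t' + 1 : ℕ) := by push_cast; linarith [(bp_t h).1, (bp_t h').2]
    have b : (t' : ℝ) < (t + 1 : ℕ) := by push_cast; linarith [(bp_t h').1, (bp_t h).2]
    have := Nat.cast_lt.1 a
    have := Nat.cast_lt.1 b
    omega
  have k : ∀ c c', bp t c s ≠ 0 → bp t c' s ≠ 0 → c ≤ c' := fun c c' h h' => by
    by_contra hn
    have : (2 : ℝ) ^ (c' + 1) ≤ 2 ^ c := pow_le_pow_right₀ one_le_two (by omega)
    rw [pow_succ] at this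
    nlinarith [(bp_ne h).2, (bp_ne h').1, (bp_t h).1]
  exact ⟨rfl, le_antisymm (k _ _ h h') (k _ _ h' h)⟩

theorem realize {I : Type} [Countable I] [Inhabited I] (a : ℕ → I → ℝ) :
    ∃ (j : (I →₀ ℝ) →ₗ[ℝ] C(ℝ, ℝ)) (pt : ℕ → I → ℝ), (∀ x t ι, j x (pt t ι) = a t ι * x ι) ∧
      (∀ t ι, |pt t ι| ≤ (t + 1 : ℕ)) ∧
      ∀ s : ℝ, ∃ (t : ℕ) (ι : I) (l : ℝ), |l| ≤ 1 ∧ t ≤ |s| ∧ ∀ x, j x s = l * (a t ι * x ι) := by
  classical
  obtain ⟨c, hc⟩ := Countable.exists_injective_nat I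
  let F : I → C(ℝ, ℝ) := fun ι => ⟨fun s => ∑ᶠ t, a t ι * bp t (c ι) s, continuous_finsum
    (fun t => by unfold bp; fun_prop) fun s => ⟨Iio (s + 1), Iio_mem_nhds (by linarith), by
      obtain ⟨n, hn⟩ := exists_nat_ge (s + 1)
      refine (finite_lt_nat n).subset fun t ⟨u, h1, h2⟩ => ?_
      exact Nat.cast_lt.1 ((bp_t (right_ne_zero_of_mul h1)).1.trans (h2.trans_le hn))⟩⟩
  have key : ∀ s t ι, bp t (c ι) s ≠ 0 → ∀ x : I →₀ ℝ,
      Finsupp.linearCombination ℝ F x s = bp t (c ι) s * (a t ι * x ι) := fun s t ι h x => by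
    have e : ∀ κ, F κ s = if κ = ι then bp t (c ι) s * a t ι else 0 := fun κ => by
      show ∑ᶠ t, a t κ * bp t (c κ) s = _
      split_ifs with hk
      · rw [hk, finsum_eq_single _ t, mul_comm]
        exact fun u hu => by_contra fun x => hu (bp_uniq (right_ne_zero_of_mul x) h).1
      · exact finsum_eq_zero_of_forall_eq_zero fun u =>
          by_contra fun x => hk (hc (bp_uniq (right_ne_zero_of_mul x) h).2)
    induction x using Finsupp.induction_linear with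
    | zero => simp
    | add f g a b => rw [map_add, ContinuousMap.add_apply, a, b, Finsupp.add_apply]; ring
    | single κ r =>
      rw [Finsupp.linearCombination_single, ContinuousMap.smul_apply, e, Finsupp.single_apply]
      split_ifs
      · rw [smul_eq_mul]; ring
      · simp
  have k1 : ∀ t c : ℕ, bp t c (t + 3 / 4 / 2 ^ c) = 1 := fun t c => by
    rw [bp, add_sub_cancel_left, mul_div_cancel₀ _ (by positivity)]
    norm_num
  refine ⟨Finsupp.linearCombination ℝ F, fun t ι => t + 3 / 4 / 2 ^ c ι, fun x t ι => ?_,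
    fun t ι => ?_, fun s => ?_⟩
  · rw [key _ t ι (by rw [k1]; exact one_ne_zero), k1, one_mul]
  · have := bp_t (t := t) (c := c ι) (by rw [k1]; exact one_ne_zero)
    rw [abs_of_nonneg (by positivity)]
    push_cast
    exact this.2.le
  · by_cases h : ∃ t ι, bp t (c ι) s ≠ 0
    · obtain ⟨t, ι, h⟩ := h
      refine ⟨t, ι, _, ?_, (bp_t h).1.le.trans (le_abs_self _), key s t ι h⟩
      rw [abs_of_nonneg (le_max_left _ _)]
      exact max_le zero_le_one (sub_le_self _ (abs_nonneg _))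
    · push Not at h
      refine ⟨0, default, 0, by simp, by simp, fun x => ?_⟩
      rw [zero_mul, Finsupp.linearCombination_apply, Finsupp.sum, ContinuousMap.sum_apply]
      refine Finset.sum_eq_zero fun κ _ => ?_
      show x κ • ∑ᶠ t, a t κ * bp t (c κ) s = 0
      simp [h]

end Pool.Agent.H.MP_708f28_lc
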