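import Mathlib

namespace Pool.Agent.H.MP_708f28_lc

/-- closed subspaces of `C(ℝ)` -/
def SF : Type := {X : Submodule ℝ C(ℝ, ℝ) // IsClosed (X : Set C(ℝ, ℝ))}

/-- the Effros Borel structure -/
def effros : MeasurableSpace SF :=
  MeasurableSpace.generateFrom
    {S | ∃ U : Set C(ℝ, ℝ), IsOpen U ∧ S = {X : SF | ∃ f ∈ X.1, f ∈ U}}

/-- `e` is a Schauder basis of `X` -/
def IsBasis (X : Submodule ℝ C(ℝ, ℝ)) (e : ℕ → C(ℝ, ℝ)) : Prop :=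
  (∀ n, e n ∈ X) ∧ ∀ f ∈ X, ∃! a : ℕ → ℝ,
    Filter.Tendsto (fun N => ∑ n ∈ Finset.range N, a n • e n) Filter.atTop (nhds f)

/-- the spaces with a basis -/
def SFb : Set SF := {X | FiniteDimensional ℝ X.1 ∨ ∃ e, IsBasis X.1 e}

end Pool.Agent.H.MP_708f28_lc
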