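import Mathlib
import Pool.Agent.H.MP_708f28_lc.A
import Pool.Agent.H.MP_708f28_lc.B
import Pool.Agent.H.MP_708f28_lc.Defs

namespace Pool.Agent.H.MP_708f28_lc

open Set Filter Topology

structure Rz {I : Type} (a : ℕ → I → ℝ) (j : (I →₀ ℝ) →ₗ[ℝ] C(ℝ, ℝ)) (pt : ℕ → I → ℝ) : Prop where
  pos : ∀ t ι, 0 < a t ι
  mono : ∀ ι, Monotone fun t => a t ι
  h1 : ∀ x t ι, j x (pt t ι) = a t ι * x ι
  h2 : ∀ t ι, |pt t ι| ≤ (t + 1 : ℕ)
  h3 : ∀ s : ℝ, ∃ (t : ℕ) (ι : I) (l : ℝ), |l| ≤ 1 ∧ t ≤ |s| ∧ ∀ x, j x s = l * (a t ι * x ι)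

variable {I : Type} {a : ℕ → I → ℝ} {j : (I →₀ ℝ) →ₗ[ℝ] C(ℝ, ℝ)} {pt : ℕ → I → ℝ}
  {D : Submodule ℝ (I →₀ ℝ)}

noncomputable def cc (a : ℕ → I → ℝ) (pt : ℕ → I → ℝ) (ι : I) : C(ℝ, ℝ) →L[ℝ] ℝ :=
  (a 0 ι)⁻¹ • ContinuousMap.evalCLM ℝ (pt 0 ι)

theorem Rz.c1 (h : Rz a j pt) (x : I →₀ ℝ) (ι : I) : cc a pt ι (j x) = x ι := by
  show (a 0 ι)⁻¹ * j x (pt 0 ι) = _
  rw [h.h1, inv_mul_cancel_left₀ (h.pos 0 ι).ne']

theorem ind {g g' : C(ℝ, ℝ) → ℝ} (hg : Continuous g) (hg' : Continuous g')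
    (h : ∀ x ∈ D, g (j x) = g' (j x)) {f : C(ℝ, ℝ)} (hf : f ∈ (D.map j).topologicalClosure) :
    g f = g' f :=
  closure_minimal (t := {f | g f = g' f}) (by rintro _ ⟨x, hx, rfl⟩; exact h x hx)
    (isClosed_eq hg hg') hf

theorem Rz.c2 (h : Rz a j pt) {f : C(ℝ, ℝ)} (hf : f ∈ (D.map j).topologicalClosure) (t : ℕ)
    (ι : I) : a t ι * |cc a pt ι f| ≤ pp (t + 1) f := by
  refine Eq.trans_le ?_ (le_pp f (h.h2 t ι))
  rw [ind (g := fun f => f (pt t ι)) (g' := fun f => a t ι * cc a pt ι f) (by fun_prop)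
    (by fun_prop) (fun x _ => by rw [h.c1, h.h1]) hf, abs_mul, abs_of_pos (h.pos t ι)]

theorem Rz.c3 (h : Rz a j pt) {t : ℕ} {x : I →₀ ℝ} {c : ℝ} (hc : 0 ≤ c)
    (hx : ∀ ι, a t ι * |x ι| ≤ c) : pp t (j x) ≤ c := pp_le hc fun s hs => by
  obtain ⟨u, ι, l, a1, a2, a3⟩ := h.h3 s
  rw [a3, abs_mul, abs_mul, abs_of_pos (h.pos u ι)]
  exact (mul_le_of_le_one_left (mul_nonneg (h.pos u ι).le (abs_nonneg _)) a1).trans
    ((mul_le_mul_of_nonneg_right (h.mono ι (Nat.cast_le.1 (a2.trans hs))) (abs_nonneg _)).trans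
      (hx ι))

theorem Rz.good [Countable I] (h : Rz a j pt) (Fr : Set I) (hF : Fr.Infinite)
    (hb : ∀ κ ∈ Fr, ∃ b ∈ D, b κ = 1 ∧ ∀ ι ∈ Fr, ι ≠ κ → b ι = 0)
    (hD : ∀ t, ∃ m, ∀ x ∈ D, ∀ c, 0 ≤ c → (∀ κ ∈ Fr, a m κ * |x κ| ≤ c) → ∀ ι, a t ι * |x ι| ≤ c) :
    ∃ e, IsBasis (D.map j).topologicalClosure e := by
  classical
  haveI := hF.to_subtype
  obtain ⟨ε⟩ : Nonempty (ℕ ≃ Fr) := nonempty_equiv_of_countable
  choose b b1 b2 b3 using fun n => hb (ε n) (ε n).2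
  have b4 : ∀ n k, b n (ε k) = if n = k then 1 else 0 := fun n k => by
    split_ifs with e
    · rw [← e, b2]
    · exact b3 n _ (ε k).2 fun x => e (ε.injective (Subtype.ext x)).symm
  let Q : ℕ → C(ℝ, ℝ) →ₗ[ℝ] (I →₀ ℝ) := fun N =>
    ∑ n ∈ Finset.range N, (cc a pt (ε n)).toLinearMap.smulRight (b n)
  have q0 : ∀ N f, Q N f = ∑ n ∈ Finset.range N, cc a pt (ε n) f • b n := fun N f => by
    simp [Q, LinearMap.sum_apply]
  have q1 : ∀ N f, Q N f ∈ D := fun N f => q0 N f ▸ sum_mem fun n _ => D.smul_mem _ (b1 n)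
  have q2 : ∀ N f k, Q N f (ε k) = if k < N then cc a pt (ε k) f else 0 := fun N f k => by
    simp [q0, Finsupp.finset_sum_apply, b4]
  refine ⟨fun n => j (b n), fun n => Submodule.le_topologicalClosure _ ⟨_, b1 n, rfl⟩,
    fun f hf => ⟨fun n => cc a pt (ε n) f, tend pp_basis fun t δ hδ => ?_, fun A hA => ?_⟩⟩
  · obtain ⟨m, hm⟩ := hD t
    obtain ⟨_, x1, x, hx, rfl⟩ := mem_closure_iff_nhds.1 hf _ (Continuous.tendsto'
      (f := fun g => pp (m + 1 + t) (f - g)) ((pp_cont _).comp (by fun_prop)) f 0 (by simp)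
        (gt_mem_nhds (half_pos hδ)))
    replace x1 : pp (m + 1 + t) (f - j x) < δ / 2 := x1
    obtain ⟨N, hN⟩ := (x.hasFiniteSupport.preimage (f := fun n => (ε n : I))
      (Subtype.val_injective.comp ε.injective).injOn).bddAbove
    filter_upwards [eventually_gt_atTop N] with n hn
    have e1 : Q n (j x) = x := by
      refine sub_eq_zero.1 (Finsupp.ext fun ι => abs_nonpos_iff.1 (nonpos_of_mul_nonpos_right
        (hm _ (sub_mem (q1 _ _) hx) 0 le_rfl (fun κ hκ => ?_) ι) (h.pos t ι)))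
      obtain ⟨k, rfl⟩ : ∃ k, (ε k : I) = κ := ⟨ε.symm ⟨κ, hκ⟩, by simp⟩
      rw [Finsupp.sub_apply, q2, h.c1]
      split_ifs with hk
      · simp
      · rw [show x (ε k) = 0 from by_contra fun y => hk ((hN y).trans_lt hn)]
        simp
    have e2 : pp t (j (Q n (f - j x))) ≤ pp (m + 1) (f - j x) := h.c3 (apply_nonneg _ _)
      (hm _ (q1 _ _) _ (apply_nonneg _ _) fun κ hκ => by
        obtain ⟨k, rfl⟩ : ∃ k, (ε k : I) = κ := ⟨ε.symm ⟨κ, hκ⟩, by simp⟩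
        rw [q2]
        split_ifs
        · exact h.c2 (sub_mem hf (Submodule.le_topologicalClosure _ ⟨_, hx, rfl⟩)) m _
        · simp)
    have e3 : ∑ n ∈ Finset.range n, cc a pt (ε n) f • j (b n) - f =
        j (Q n (f - j x)) - (f - j x) := by
      rw [map_sub, e1, map_sub, q0, map_sum]
      simp
    rw [e3]
    linarith [map_sub_le_add (pp t) (j (Q n (f - j x))) (f - j x),
      pp_mono (show t ≤ m + 1 + t by omega) (f - j x),
      pp_mono (show m + 1 ≤ m + 1 + t by omega) (f - j x)]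
  · funext k
    refine tendsto_nhds_unique (tendsto_const_nhds.congr' ?_)
      (((cc a pt (ε k)).continuous.tendsto f).comp hA)
    filter_upwards [eventually_gt_atTop k] with n hn
    simp [h.c1, b4, hn]

theorem Rz.ops (h : Rz a j pt) {e : ℕ → C(ℝ, ℝ)} (he : IsBasis (D.map j).topologicalClosure e) :
    ∃ α : ℕ → D →ₗ[ℝ] ℝ,
      (∀ x ι, Tendsto (fun N => ∑ n ∈ Finset.range N, α n x * cc a pt ι (e n)) atTop (𝓝 (x.1 ι))) ∧
      ∀ t, ∃ m C, 0 ≤ C ∧ ∀ N (x : D) ι c, 0 ≤ c → (∀ κ, a m κ * |x.1 κ| ≤ c) →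
        a t ι * |∑ n ∈ Finset.range N, α n x * cc a pt ι (e n)| ≤ C * c := by
  let X := (D.map j).topologicalClosure
  haveI := (Submodule.isClosed_topologicalClosure (D.map j)).isCompletelyPseudoMetrizableSpace
  haveI : BaireSpace X := BaireSpace.of_completelyPseudoMetrizable
  obtain ⟨α, a1, a2⟩ := equi (E := X) (p := fun t => (pp t).comp X.subtype)
    (fun s t hs x => pp_mono hs x.1) (fun t => (pp_cont t).comp continuous_subtype_val)
    (fun U hU => by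
      obtain ⟨V, hV, hU⟩ := (mem_nhds_subtype _ _ _).1 hU
      obtain ⟨m, δ, d, k⟩ := pp_basis V hV
      exact ⟨m, δ, d, fun x hx => hU (k _ hx)⟩) (e := fun n => ⟨e n, he.1 n⟩) fun x => by
      simpa [tendsto_subtype_rng] using he.2 x x.2
  let i : D →ₗ[ℝ] X := (j ∘ₗ D.subtype).codRestrict X fun x =>
    Submodule.le_topologicalClosure _ ⟨_, x.2, rfl⟩
  have k : ∀ N x ι, cc a pt ι (∑ n ∈ Finset.range N, α n x • (⟨e n, he.1 n⟩ : X) : X) =
      ∑ n ∈ Finset.range N, α n x * cc a pt ι (e n) := fun N x ι => by simp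
  refine ⟨fun n => α n ∘ₗ i, fun x ι => ?_, fun t => ?_⟩
  · rw [← h.c1]
    exact ((((cc a pt ι).continuous.comp continuous_subtype_val).tendsto _).comp (a1 (i x))).congr
      fun N => k N _ ι
  · obtain ⟨m, C, c0, hC⟩ := a2 (t + 1)
    refine ⟨m, C, c0, fun N x ι c hc hx => ?_⟩
    simp only [LinearMap.comp_apply]
    rw [← k]
    exact (h.c2 (Subtype.prop _) t ι).trans ((hC N (i x)).trans
      (mul_le_mul_of_nonneg_left (h.c3 hc hx) c0))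

end Pool.Agent.H.MP_708f28_lc
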