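import Mathlib
import Pool.Agent.H.MP_708f28_lc.C

namespace Pool.Agent.H.MP_708f28_lc

open Set Filter Topology

abbrev Pc := ℕ × (ℕ →₀ ℕ) × ℕ

abbrev Ix := Pc × ℕ × ℕ

theorem exl (π : Pc) (t : ℕ) : ∃ j, π.1 ≤ j ∨ t < π.2.1 j + j := ⟨π.1, Or.inl le_rfl⟩

noncomputable def lev (π : Pc) (t : ℕ) : ℕ := Nat.find (exl π t)

theorem lev_le {π : Pc} {t j : ℕ} (h : t < π.2.1 j + j) : lev π t ≤ j := Nat.find_min' _ (Or.inr h)

theorem le_lev {π : Pc} {t j : ℕ} : j ≤ lev π t ↔ ∀ k < j, k < π.1 ∧ π.2.1 k + k ≤ t := by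
  simp [lev]

theorem lev_mono (π : Pc) : Monotone (lev π) := fun _ _ h =>
  le_lev.2 fun k hk => (le_lev.1 le_rfl k hk).imp_right fun a => a.trans h

def lvl (n l : ℕ) : ℕ := if l = 0 then n % 2 else if l = 1 then 2 + n % 2 else l

noncomputable def ex (t : ℕ) (ι : Ix) : ℕ :=
  lev ι.1 t + if lvl ι.2.1 ι.2.2 = lev ι.1 t then 1 else 0

noncomputable def RR (π : Pc) (n : ℕ) : ℝ := (π.2.2 + 1) * 2 ^ n

noncomputable def wt (t : ℕ) (ι : Ix) : ℝ := (ι.1.1 + 3) ^ t * RR ι.1 ι.2.1 ^ ex t ι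

theorem RR_one (π : Pc) (n : ℕ) : 1 ≤ RR π n :=
  one_le_mul_of_one_le_of_one_le (by linarith [(π.2.2.cast_nonneg : (0 : ℝ) ≤ _)])
    (one_le_pow₀ one_le_two)

theorem RR_mono (π : Pc) {n n' : ℕ} (h : n ≤ n') : RR π n ≤ RR π n' :=
  mul_le_mul_of_nonneg_left (pow_le_pow_right₀ one_le_two h) (by positivity)

theorem RR_pow (π : Pc) {n n' e e' : ℕ} (h : n ≤ n') (h' : e ≤ e') : RR π n ^ e ≤ RR π n' ^ e' :=
  (pow_le_pow_left₀ (zero_le_one.trans (RR_one π n)) (RR_mono π h) e).trans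
    (pow_le_pow_right₀ (RR_one π n') h')

theorem K_one (K : ℕ) : (1 : ℝ) ≤ K + 3 := by linarith [(K.cast_nonneg : (0 : ℝ) ≤ _)]

theorem wt_pos (t : ℕ) (ι : Ix) : 0 < wt t ι :=
  mul_pos (by positivity) (pow_pos (one_pos.trans_le (RR_one _ _)) _)

theorem wt_mono (ι : Ix) : Monotone fun t => wt t ι := fun s t h => by
  refine mul_le_mul (pow_le_pow_right₀ (K_one _) h) (RR_pow _ le_rfl ?_)
    (pow_nonneg (zero_le_one.trans (RR_one _ _)) _) (by positivity)
  have := lev_mono ι.1 h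
  unfold ex
  split_ifs <;> omega

def rl (π : Pc) (r : ℕ) (x : Ix → ℝ) : ℝ :=
  x (π, r, 0) + x (π, r + 1, 0) + x (π, r, 1) + ∑ l ∈ Finset.Ico 4 π.1, x (π, r, l)

noncomputable def rL (π : Pc) (r : ℕ) : (Ix →₀ ℝ) →ₗ[ℝ] ℝ where
  toFun x := rl π r x
  map_add' x y := by simp only [rl, Finsupp.add_apply, Finset.sum_add_distrib]; ring
  map_smul' c x := by
    simp only [rl, Finsupp.smul_apply, smul_eq_mul, RingHom.id_apply, mul_add, Finset.mul_sum]

noncomputable def DD (Λ : Set Pc) : Submodule ℝ (Ix →₀ ℝ) := ⨅ π ∈ Λ, ⨅ r, LinearMap.ker (rL π r)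

theorem mem_DD {Λ : Set Pc} {x : Ix →₀ ℝ} : x ∈ DD Λ ↔ ∀ π ∈ Λ, ∀ r, rL π r x = 0 := by
  simp [DD]

variable {j : (Ix →₀ ℝ) →ₗ[ℝ] C(ℝ, ℝ)} {pt : ℕ → Ix → ℝ} {Λ : Set Pc}

theorem good (h : Rz wt j pt) (w : ℕ → ℕ) (hw : ∀ π ∈ Λ, ∃ i, 4 ≤ i ∧ i < π.1 ∧ π.2.1 i ≤ w i) :
    ∃ e, IsBasis ((DD Λ).map j).topologicalClosure e := by
  classical
  choose! i i1 i2 i3 using hw
  refine h.good {ι | ¬ (ι.1 ∈ Λ ∧ ι.2.2 = i ι.1)} (infinite_of_injective_forall_mem
    (f := fun n : ℕ => ((default, n, 0) : Ix)) (fun _ _ e => by simpa using e)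
      fun n x => absurd (i1 _ x.1) (by rw [← x.2]; simp)) ?_ fun t => ?_
  · rintro ⟨π, n, l⟩ hκ
    by_cases hπ : π ∈ Λ
    swap
    · refine ⟨Finsupp.single (π, n, l) 1, mem_DD.2 fun π' h' r => ?_, by simp,
        fun ι _ e => Finsupp.single_eq_of_ne e⟩
      have : π' ≠ π := fun e => hπ (e ▸ h')
      simp [rL, rl, this]
    have k : ∀ ι ∈ {ι : Ix | ¬ (ι.1 ∈ Λ ∧ ι.2.2 = i ι.1)}, ∀ r c,
        Finsupp.single (π, r, i π) (c : ℝ) ι = 0 := fun ι hι r c =>
      Finsupp.single_eq_of_ne (by rintro rfl; exact hι ⟨hπ, rfl⟩)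
    refine ⟨Finsupp.single (π, n, l) 1 - ∑ r ∈ Finset.range (n + 1),
      rL π r (Finsupp.single (π, n, l) 1) • Finsupp.single (π, r, i π) 1,
      mem_DD.2 fun π' h' r => ?_, by simp [Finsupp.finsetSum_apply, k _ hκ],
      fun ι hι e => by simp [Finsupp.finsetSum_apply, k _ hι, Finsupp.single_eq_of_ne e]⟩
    by_cases e : π' = π
    swap
    · simp [rL, rl, e, Finsupp.finsetSum_apply]
    subst e
    have k2 : ∀ r', rL π' r (Finsupp.single (π', r', i π') 1) = if r' = r then 1 else 0 := by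
      intro r'
      have a1 := i1 _ hπ
      have a2 := i2 _ hπ
      simp only [rL, rl, LinearMap.coe_mk, AddHom.coe_mk, Finsupp.single_apply, Prod.mk.injEq,
        true_and]
      rw [if_neg (by omega), if_neg (by omega), if_neg (by omega)]
      by_cases e : r' = r <;> simp [e, a1, a2]
    simp only [map_sub, map_sum, map_smul, k2, smul_eq_mul, mul_ite, mul_one, mul_zero,
      Finset.sum_ite_eq', Finset.mem_range]
    split_ifs with e
    · simp
    · have e1 : r ≠ n := by omega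
      have e2 : r + 1 ≠ n := by omega
      simp [rL, rl, e1, e2]
  · refine ⟨t + 1 + ∑ k ∈ Finset.range (t + 2), (w k + k), fun x hx c hc H ι => ?_⟩
    by_cases hι : ι.1 ∈ Λ ∧ ι.2.2 = i ι.1
    swap
    · exact (mul_le_mul_of_nonneg_right (wt_mono ι (by omega)) (abs_nonneg _)).trans (H ι hι)
    obtain ⟨π, n, l⟩ := ι
    obtain ⟨hπ, rfl⟩ : π ∈ Λ ∧ l = i π := hι
    have a1 := i1 _ hπ
    have a2 := i2 _ hπ
    have k : ∀ n' l, n ≤ n' → l ≠ i π → wt t (π, n, i π) * |x (π, n', l)| ≤ c / (π.1 + 3) := by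
      intro n' l hn hl
      rw [le_div_iff₀' (by positivity), ← mul_assoc]
      refine (mul_le_mul_of_nonneg_right ?_ (abs_nonneg _)).trans (H (π, n', l) fun x => hl x.2)
      rw [wt, ← mul_assoc, ← pow_succ']
      refine mul_le_mul (pow_le_pow_right₀ (K_one _) (by omega)) (RR_pow _ hn
        (le_trans ?_ (Nat.le_add_right _ _)))
        (pow_nonneg (zero_le_one.trans (RR_one _ _)) _) (by positivity)
      unfold ex
      split_ifs with e
      · have e' : i π = lev π t := by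
          rw [← e]
          simp only [lvl]
          rw [if_neg (by omega), if_neg (by omega)]
        have b : lev π t ≤ t + 1 := lev_le (by omega)
        have b2 := Finset.single_le_sum (f := fun k => w k + k) (fun _ _ => Nat.zero_le _)
          (Finset.mem_range.2 (show i π < t + 2 by omega))
        have b3 := i3 _ hπ
        refine le_lev.2 fun k hk => ⟨by dsimp only at hk ⊢; omega, ?_⟩
        rcases (Nat.lt_succ_iff.1 hk).eq_or_lt with rfl | hk
        · rw [← e']
          dsimp only at b2 ⊢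
          omega
        · exact (le_lev.1 le_rfl k hk).2.trans (by omega)
      · exact lev_mono _ (by omega)
    have r := mem_DD.1 hx π hπ n
    simp only [rL, rl, LinearMap.coe_mk, AddHom.coe_mk] at r
    rw [← Finset.add_sum_erase _ _ (Finset.mem_Ico.2 ⟨a1, a2⟩)] at r
    have s := (Finset.abs_sum_le_sum_abs (fun l => x (π, n, l)) ((Finset.Ico 4 π.1).erase (i π)))
    have s2 := Finset.sum_le_card_nsmul ((Finset.Ico 4 π.1).erase (i π))
      (fun l => wt t (π, n, i π) * |x (π, n, l)|) _ fun l hl => k n l le_rfl (Finset.ne_of_mem_erase hl)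
    rw [← Finset.mul_sum, nsmul_eq_mul] at s2
    have s3 : (((Finset.Ico 4 π.1).erase (i π)).card : ℝ) ≤ π.1 :=
      Nat.cast_le.2 (Finset.card_erase_le.trans (by simp))
    have s4 : |x (π, n, i π)| ≤ |x (π, n, 0)| + |x (π, n + 1, 0)| + |x (π, n, 1)| +
        ∑ l ∈ (Finset.Ico 4 π.1).erase (i π), |x (π, n, l)| := by
      rw [abs_le] at s ⊢
      constructor <;> linarith [le_abs_self (x (π, n, 0)), le_abs_self (x (π, n + 1, 0)),
        le_abs_self (x (π, n, 1)), neg_abs_le (x (π, n, 0)), neg_abs_le (x (π, n + 1, 0)),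
        neg_abs_le (x (π, n, 1))]
    have s5 := mul_le_mul_of_nonneg_left s4 (wt_pos t (π, n, i π)).le
    have s6 : (π.1 + 3) * (c / (π.1 + 3)) = c := mul_div_cancel₀ _ (by positivity)
    have s7 := mul_le_mul_of_nonneg_right s3 (show 0 ≤ c / (π.1 + 3) by positivity)
    linarith [k n 0 le_rfl (by omega), k (n + 1) 0 (by omega) (by omega), k n 1 le_rfl (by omega)]

noncomputable def yy (π : Pc) (n : ℕ) : Ix →₀ ℝ :=
  Finsupp.single (π, n + 1, 0) 1 - Finsupp.single (π, n + 2, 0) 1 - Finsupp.single (π, n, 1) 1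
    + Finsupp.single (π, n + 2, 1) 1

theorem yy_apply (π π' : Pc) (n r l : ℕ) : yy π n (π', r, l) =
    if π = π' then (if l = 0 then (if r = n + 1 then 1 else if r = n + 2 then -1 else 0) else
      if l = 1 then (if r = n then -1 else if r = n + 2 then 1 else 0) else 0) else 0 := by
  simp only [yy, Finsupp.add_apply, Finsupp.sub_apply, Finsupp.single_apply, Prod.mk.injEq]
  grind

theorem yy_mem (π : Pc) (n : ℕ) : yy π n ∈ DD Λ := mem_DD.2 fun π' _ r => by
  simp only [rL, rl, LinearMap.coe_mk, AddHom.coe_mk]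
  rw [Finset.sum_eq_zero fun l hl => by
    have := (Finset.mem_Ico.1 hl).1
    rw [yy_apply]
    grind]
  simp only [yy_apply]
  grind

theorem not_fd (h : Rz wt j pt) : ¬ FiniteDimensional ℝ ((DD Λ).map j).topologicalClosure := by
  intro hf
  refine Module.Finite.not_linearIndependent_of_infinite (R := ℝ)
    (fun n : ℕ => (⟨j (yy default (2 * n)), Submodule.le_topologicalClosure _
      ⟨_, yy_mem _ _, rfl⟩⟩ : ((DD Λ).map j).topologicalClosure)) ?_
  refine linearIndependent_iff'.2 fun s g hg n hn => ?_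
  have := congrArg (fun f : ((DD Λ).map j).topologicalClosure =>
    cc wt pt (default, 2 * n + 1, 0) f) hg
  simp only [AddSubmonoidClass.coe_finsetSum, SetLike.val_smul, map_sum, map_smul, h.c1,
    ZeroMemClass.coe_zero, map_zero] at this
  rw [Finset.sum_eq_single n (fun m _ hm => by rw [yy_apply]; simp; grind) (fun x => absurd hn x),
    yy_apply] at this
  simpa using this

theorem bad (h : Rz wt j pt)
    (hΛ : ∀ s : ℕ → ℕ, ∃ K σ, 4 ≤ K ∧ (∀ i < K, σ i = s i) ∧ ∀ M, (K, σ, M) ∈ Λ) :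
    ¬ ∃ e, IsBasis ((DD Λ).map j).topologicalClosure e := by
  rintro ⟨e, he⟩
  obtain ⟨α, lim, bd⟩ := h.ops he
  choose m C c0 bd using bd
  let T : ℕ → ℕ := fun j => j.rec 0 fun j t => t + m t + 1 + j
  have T1 : ∀ j, T (j + 1) = T j + m (T j) + 1 + j := fun _ => rfl
  have T2 : Monotone T := monotone_nat_of_le_succ fun j => by rw [T1]; omega
  obtain ⟨K, σ, hK, hσ, hM⟩ := hΛ fun j => T j + m (T j) + 1
  let Θ : ℝ := ∑ j ∈ Finset.range K, C (T j) * ((K + 3) ^ m (T j) * 8 ^ j)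
  obtain ⟨M, hM'⟩ := exists_nat_ge (4 * (K + 2) * Θ)
  let π : Pc := (K, σ, M)
  let Q : ℕ → DD Λ → Ix → ℝ := fun N x ι => ∑ n ∈ Finset.range N, α n x * cc wt pt ι (e n)
  have R0 : ∀ n, 0 < RR π n := fun n => one_pos.trans_le (RR_one _ _)
  have l1 : ∀ j < K, lev π (m (T j)) ≤ j := fun j hj => lev_le (by rw [hσ j hj]; omega)
  have l2 : ∀ j < K, lev π (T j) = j := fun j hj => le_antisymm (lev_le (by rw [hσ j hj]; omega))
    (le_lev.2 fun k hk => ⟨hk.trans hj, by rw [hσ k (hk.trans hj)]; exact T2 hk⟩)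
  have lo : ∀ t n n' l j, n ≤ n' → j ≤ ex t (π, n', l) → RR π n ^ j ≤ wt t (π, n', l) :=
    fun t n n' l j a b => (RR_pow π a b).trans (le_mul_of_one_le_left (pow_pos (R0 _) _).le
      (one_le_pow₀ (K_one _)))
  have up : ∀ t n j (x : Ix →₀ ℝ), (∀ π' r l, |x (π', r, l)| ≤ 1 ∧
      (x (π', r, l) ≠ 0 → π = π' ∧ r ≤ n + 3 ∧ ex t (π, r, l) ≤ j)) →
      ∀ κ, wt t κ * |x κ| ≤ (K + 3) ^ t * 8 ^ j * RR π n ^ j := by
    rintro t n j x hx ⟨π', r, l⟩
    by_cases h0 : x (π', r, l) = 0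
    · rw [h0, abs_zero, mul_zero]
      have := R0 n
      positivity
    obtain ⟨rfl, a, b⟩ := (hx _ _ _).2 h0
    refine (mul_le_of_le_one_right (wt_pos _ _).le (hx _ _ _).1).trans ?_
    rw [mul_assoc, ← mul_pow, show 8 * RR π n = RR π (n + 3) by simp only [RR]; ring]
    exact mul_le_mul_of_nonneg_left (RR_pow π a b) (by positivity)
  have sm : ∀ N n n' l (x : DD Λ), n ≤ n' → lvl n' l < K → (∀ π' r l', |x.1 (π', r, l')| ≤ 1 ∧
      (x.1 (π', r, l') ≠ 0 → π = π' ∧ r ≤ n + 3 ∧ lvl r l' ≠ lvl n' l)) →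
      |Q N x (π, n', l)| ≤ Θ / RR π n := by
    intro N n n' l x hn hl hx
    have a := bd (T (lvl n' l)) N x (π, n', l) _ (by have := R0 n; positivity)
      (up _ n (lvl n' l) x.1 fun π' r l' => ⟨(hx π' r l').1, fun h0 =>
        ⟨((hx π' r l').2 h0).1, ((hx π' r l').2 h0).2.1, by
          have := ((hx π' r l').2 h0).2.2
          have := l1 _ hl
          simp only [ex]
          split_ifs <;> omega⟩⟩)
    have b := lo (T (lvl n' l)) n n' l (lvl n' l + 1) hn (by simp [ex, l2 _ hl])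
    have c := (mul_le_mul_of_nonneg_right b (abs_nonneg _)).trans a
    rw [pow_succ, mul_assoc, ← mul_assoc (C _), mul_comm (_ * _),
      mul_le_mul_iff_right₀ (pow_pos (R0 n) _)] at c
    rw [le_div_iff₀' (R0 n)]
    exact c.trans (Finset.single_le_sum (f := fun j => C (T j) * ((K + 3 : ℝ) ^ m (T j) * 8 ^ j))
      (fun j _ => mul_nonneg (c0 _) (by positivity)) (Finset.mem_range.2 hl))
  let y : ℕ → DD Λ := fun n => ⟨yy π n, yy_mem π n⟩
  have rel : ∀ N x r, rl π r (Q N x) = 0 := fun N x r => by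
    have : ∀ n, rl π r (fun ι => cc wt pt ι (e n)) = 0 := fun n =>
      ind (g := fun f => rl π r fun ι => cc wt pt ι f) (g' := fun _ => 0) (by unfold rl; fun_prop)
        continuous_const (fun x hx => by simp only [h.c1]; exact mem_DD.1 hx π (hM M) r) (he.1 n)
    refine Eq.trans ?_ (Finset.sum_eq_zero (s := Finset.range N) fun n _ =>
      mul_eq_zero_of_right (α n x) (this n))
    simp only [rl, Q, mul_add, Finset.sum_add_distrib, Finset.mul_sum]
    rw [Finset.sum_comm]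
  have st : ∀ N n, dist (Q N (y n) (π, n + 1, 0)) (Q N (y (n + 1)) (π, n + 1 + 1, 0)) ≤
      1 / 2 / 2 / 2 ^ n := fun N n => by
    have a1 := sm N n (n + 2) 0 (y n + y (n + 1)) (by omega) (by simp only [lvl]; grind)
      fun π' r l => by simp only [y, Submodule.coe_add, Finsupp.add_apply, yy_apply, lvl]; grind
    have a2 := sm N n (n + 1) 1 (y n) (by omega) (by simp only [lvl]; grind)
      fun π' r l => by simp only [y, yy_apply, lvl]; grind
    have a3 := (Finset.abs_sum_le_sum_abs _ _).trans (Finset.sum_le_card_nsmul (Finset.Ico 4 K)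
      (fun l => |Q N (y n) (π, n + 1, l)|) _ fun l hl => sm N n (n + 1) l (y n) (by omega)
        (by rw [Finset.mem_Ico] at hl; simp only [lvl]; grind) fun π' r l' => by
          rw [Finset.mem_Ico] at hl
          simp only [y, yy_apply, lvl]
          grind)
    have a4 := rel N (y n) (n + 1)
    have a5 : Q N (y n + y (n + 1)) (π, n + 2, 0) =
        Q N (y n) (π, n + 2, 0) + Q N (y (n + 1)) (π, n + 2, 0) := by
      simp only [Q, map_add, add_mul, Finset.sum_add_distrib]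
    have a6 : 0 ≤ Θ / RR π n := (abs_nonneg _).trans a1
    have a7 : (((Finset.Ico 4 K).card : ℝ)) * (Θ / RR π n) ≤ K * (Θ / RR π n) :=
      mul_le_mul_of_nonneg_right (Nat.cast_le.2 (by simp)) a6
    have a8 : (K + 2) * (Θ / RR π n) ≤ 1 / 2 / 2 / 2 ^ n := by
      rw [← mul_div_assoc, div_le_div_iff₀ (R0 n) (by positivity), RR, ← mul_assoc]
      exact mul_le_mul_of_nonneg_right (by dsimp only [π]; linarith) (by positivity)
    rw [nsmul_eq_mul] at a3
    rw [a5] at a1
    simp only [rl] at a4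
    rw [Real.dist_eq, abs_le] at *
    constructor <;> linarith [a1.1, a1.2, a2.1, a2.2, a3.1, a3.2]
  have z : ∀ N, Tendsto (fun n => Q N (y n) (π, n + 1, 0)) atTop (𝓝 0) := fun N => by
    induction N with
    | zero => exact tendsto_const_nhds
    | succ N ih =>
      simp only [Q, Finset.sum_range_succ]
      refine zero_add (0 : ℝ) ▸ ih.add ?_
      have df : ∀ t (x : DD Λ) ι c, 0 ≤ c → (∀ κ, wt (m t) κ * |x.1 κ| ≤ c) →
          wt t ι * (|α N x| * |cc wt pt ι (e N)|) ≤ 2 * C t * c := fun t x ι c hc hx => by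
        have b1 := bd t N x ι c hc hx
        have b2 := bd t (N + 1) x ι c hc hx
        have b3 := mul_le_mul_of_nonneg_left (abs_sub (Q (N + 1) x ι) (Q N x ι)) (wt_pos t ι).le
        simp only [Q] at b3
        rw [Finset.sum_range_succ, add_sub_cancel_left, ← Finset.sum_range_succ
          (fun n => α n x * cc wt pt ι (e n)), abs_mul] at b3
        linarith
      by_cases h0 : ∃ x ι, α N x * cc wt pt ι (e N) ≠ 0
      swap
      · push Not at h0
        simp only [h0, tendsto_const_nhds]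
      obtain ⟨x, ι, h0⟩ := h0
      have p1 := abs_pos.2 (left_ne_zero_of_mul h0)
      have p2 := mul_pos (wt_pos (T 0) ι) (abs_pos.2 (right_ne_zero_of_mul h0))
      obtain ⟨c, hc0, hc⟩ : ∃ c, 0 ≤ c ∧ ∀ κ, wt (m (T 2)) κ * |x.1 κ| ≤ c := by
        have nn := fun κ => mul_nonneg (wt_pos (m (T 2)) κ).le (abs_nonneg (x.1 κ))
        refine ⟨_, Finset.sum_nonneg (s := x.1.support) fun κ _ => nn κ, fun κ => ?_⟩
        by_cases hκ : κ ∈ x.1.support
        · exact Finset.single_le_sum (fun κ _ => nn κ) hκ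
        · rw [Finsupp.notMem_support_iff.1 hκ, abs_zero, mul_zero]
          exact Finset.sum_nonneg fun κ _ => nn κ
      obtain ⟨A, hA⟩ : ∃ A, ∀ n, |α N (y n)| ≤ A * RR π n := by
        refine ⟨2 * C (T 0) * ((K + 3) ^ m (T 0) * 8) / (wt (T 0) ι * |cc wt pt ι (e N)|),
          fun n => ?_⟩
        have := df (T 0) (y n) ι _ (by have := R0 n; positivity) (up _ n 1 _ fun π' r l => by
          have : ex (m (T 0)) (π, r, l) ≤ 1 := by
            have := l1 0 (by omega)
            simp only [ex]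
            split_ifs <;> omega
          simp only [y, yy_apply, this]
          grind)
        rw [div_mul_eq_mul_div, le_div_iff₀ p2]
        linarith
      have hB : ∀ n, RR π n * RR π n * |cc wt pt (π, n + 1, 0) (e N)| ≤ 2 * C (T 2) * c / |α N x| := by
        intro n
        have := (mul_le_mul_of_nonneg_right (lo (T 2) n (n + 1) 0 2 (by omega)
          (by simp [ex, l2 2 (by omega)])) (by positivity)).trans (df (T 2) x (π, n + 1, 0) c hc0 hc)
        rw [le_div_iff₀ p1]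
        linarith
      have A0 : 0 ≤ A := nonneg_of_mul_nonneg_left ((abs_nonneg _).trans (hA 0)) (R0 0)
      refine squeeze_zero_norm (a := fun n => A * (2 * C (T 2) * c / |α N x|) / 2 ^ n) (fun n => ?_)
        (tendsto_const_nhds.div_atTop (tendsto_pow_atTop_atTop_of_one_lt one_lt_two))
      rw [Real.norm_eq_abs, abs_mul, le_div_iff₀ (by positivity)]
      have r2 : 2 ^ n ≤ RR π n := le_mul_of_one_le_left (by positivity)
        (by linarith [(π.2.2.cast_nonneg : (0 : ℝ) ≤ _)])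
      refine le_trans ?_ (mul_le_mul_of_nonneg_left (hB n) A0)
      refine (mul_le_mul (mul_le_mul_of_nonneg_right (hA n) (abs_nonneg _)) r2 (by positivity)
        (by have := R0 n; positivity)).trans_eq (by ring)
  have fin := le_of_tendsto' ((lim (y 0) (π, 1, 0)).dist (tendsto_const_nhds (x := 0)))
    fun N => dist_le_of_le_geometric_two_of_tendsto₀ (st N) (z N)
  simp only [y, yy_apply] at fin
  norm_num at fin

end Pool.Agent.H.MP_708f28_lc
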