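import Mathlib
import Pool.Agent.H.MP_708f28_lc.D
import Pool.Agent.H.MP_78c86a_lc.C

namespace Pool.Agent.H.MP_708f28_lc

open Set Filter Topology MeasureTheory

theorem mtree {Z : Type} [MetricSpace Z] {B : Set Z} (hB : AnalyticSet B) :
    ∃ S : Z → ℕ → (ℕ →₀ ℕ) → Prop, (∀ K σ, IsOpen {z | S z K σ}) ∧
      (∀ z ∈ B, ∃ w : ℕ → ℕ, ∀ K σ, (∀ i, i + 4 < K → w i ≤ σ (i + 4)) → S z K σ) ∧
      ∀ z (s : ℕ → ℕ) (σ : ℕ → ℕ →₀ ℕ), (∀ K, ∀ i < K, σ K i = s i) →
        (∀ K, S z (K + 4) (σ (K + 4))) → z ∈ B := by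
  rw [AnalyticSet] at hB
  rcases hB with rfl | ⟨g, hg, rfl⟩
  · exact ⟨fun _ _ _ => False, fun _ _ => isOpen_empty, fun _ h => h.elim, fun _ _ _ _ h => h 0⟩
  refine ⟨fun z K σ => ∃ w : ℕ → ℕ, (∀ i, i + 4 < K → w i ≤ σ (i + 4)) ∧
    dist (g w) z < 1 / (K + 1), fun K σ => ?_, ?_, fun z s σ hσ h => ?_⟩
  · rw [ofPred_exists]
    exact isOpen_iUnion fun w => isOpen_const.and (isOpen_lt (by fun_prop) continuous_const)
  · rintro _ ⟨w, rfl⟩
    exact ⟨w, fun K σ h => ⟨w, h, by rw [dist_self]; positivity⟩⟩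
  · choose w w1 w2 using h
    obtain ⟨x, -, φ, hφ, hx⟩ := (isCompact_univ_pi fun i => (finite_Iic
      (s (i + 4) + ∑ K ∈ Finset.range (i + 1), w K i)).isCompact).tendsto_subseq (x := w)
      fun K i _ => by
        by_cases h : i < K
        · exact ((w1 K i (by omega)).trans_eq (hσ _ _ (by omega))).trans (Nat.le_add_right _ _)
        · exact (Finset.single_le_sum (f := fun K => w K i) (fun _ _ => Nat.zero_le _)
            (Finset.mem_range.2 (by omega))).trans (Nat.le_add_left _ _)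
    refine ⟨x, tendsto_nhds_unique ((hg.tendsto x).comp hx) (Tendsto.comp (g := fun K => g (w K))
      (tendsto_iff_dist_tendsto_zero.2 ?_) hφ.tendsto_atTop)⟩
    exact squeeze_zero (fun _ => dist_nonneg) (fun K => (w2 K).le)
      (tendsto_one_div_add_atTop_nhds_zero_nat.comp (tendsto_add_atTop_nat 4))

theorem hard {Z : Type} [TopologicalSpace Z] [PolishSpace Z] [MeasurableSpace Z] [BorelSpace Z]
    {B : Set Z} (hB : AnalyticSet B) : ∃ f : Z → SF, @Measurable _ _ _ effros f ∧ B = f ⁻¹' SFb := by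
  classical
  letI := TopologicalSpace.upgradeIsCompletelyMetrizable Z
  obtain ⟨S, s1, s2, s3⟩ := mtree hB
  obtain ⟨j, pt, h1, h2, h3⟩ := realize wt
  have h : Rz wt j pt := ⟨wt_pos, wt_mono, h1, h2, h3⟩
  refine ⟨fun z => ⟨((DD {π | ¬ S z π.1 π.2.1}).map j).topologicalClosure,
    Submodule.isClosed_topologicalClosure _⟩, measurable_generateFrom ?_, ?_⟩
  · rintro _ ⟨U, hU, rfl⟩
    have m : MeasurableSet {z | ∃ F : Finset Pc, (∀ π ∈ F, S z π.1 π.2.1) ∧
        ∃ x ∈ DD (F : Set Pc)ᶜ, j x ∈ U} :=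
      measurableSet_setOfPred.2 (.exists fun F => (Measurable.forall fun π => measurable_const.imp
        (measurableSet_setOfPred.1 (s1 _ _).measurableSet)).and measurable_const)
    convert m using 1
    ext z
    constructor
    · rintro ⟨f, hf, hfU⟩
      obtain ⟨_, hx, x, hD, rfl⟩ := mem_closure_iff.1 hf U hU hfU
      refine ⟨(x.support.image Prod.fst).filter fun π => S z π.1 π.2.1,
        fun π hπ => (Finset.mem_filter.1 hπ).2, x, mem_DD.2 fun π hπ r => ?_, hx⟩
      by_cases e : S z π.1 π.2.1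
      · have : ∀ r l, x (π, r, l) = 0 := fun r l => by_contra fun y => hπ (Finset.mem_filter.2
          ⟨Finset.mem_image_of_mem _ (Finsupp.mem_support_iff.2 y), e⟩)
        simp [rL, rl, this]
      · exact mem_DD.1 hD π e r
    · rintro ⟨F, hF, x, hx, hU⟩
      exact ⟨_, Submodule.le_topologicalClosure _
        ⟨x, mem_DD.2 fun π hπ => mem_DD.1 hx π fun y => hπ (hF π y), rfl⟩, hU⟩
  · ext z
    refine ⟨fun hz => Or.inr ?_, fun hz => by_contra fun hn => ?_⟩
    · obtain ⟨w, hw⟩ := s2 z hz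
      refine good h (fun i => w (i - 4)) fun π hπ => ?_
      by_contra hc
      push Not at hc
      exact hπ (hw _ _ fun i hi => (hc (i + 4) (by omega) hi).le)
    · refine hz.elim (not_fd h) (bad h fun s => ?_)
      let σ : ℕ → ℕ →₀ ℕ := fun K => Finsupp.onFinset (Finset.range K)
        (fun i => if i < K then s i else 0) fun i hi => by grind
      have e : ∀ K, ∀ i < K, σ K i = s i := fun K i hi => if_pos hi
      obtain ⟨K, hK⟩ := not_forall.1 fun x => hn (s3 z s σ e x)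
      exact ⟨K + 4, _, by omega, e _, fun _ => hK⟩

theorem notBorel : ¬ MeasurableSet[effros] SFb := fun hm => by
  obtain ⟨S, a, b⟩ := Pool.Agent.H.MP_78c86a_lc.nonborel
  obtain ⟨f, hf, rfl⟩ := hard a
  exact b (hf hm)

end Pool.Agent.H.MP_708f28_lc
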